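import Pool.Agent.T2H73.LB.All

/-!
# The KLS conjecture (Cheeger form) for `l_p` balls cut by signed order cones

Q1, in the form of the inequality for sets `A` of measure one half, for all bodies
`K = {x ∈ ℝⁿ | ∑ |x_i|^p ≤ 1, val x l ≤ val x m for (l, m) ∈ F}`, `p ≥ 1`, `val x l = x_i` or `- x_i`,
`F` an arbitrary set of pairs of signed variables, with a constant which depends only on `p`. These
are the intersections of the unit ball of `l_p` with all full dimensional cones given by inequalities
`± x_i ≤ ± x_j` and `0 ≤ ± x_i`, that is, all convex unions of Weyl chambers of the hyperoctahedral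
group `B_n`. Such bodies have in general no symmetries. The case `p = ∞` is the theorem
`TwoSatPolytopes`. Example: for every partial order on the coordinates the cone of nonnegative order
preserving maps gives for `p = 1` the sets `{x ≥ 0 | ∑ x_i ≤ 1, x_i ≤ x_j for i ≤ j}`. More precisely
`c n^{1/p} ≤ μ⁺(A)` for all `A` of measure one half, and some variance in a direction of length one is
at least `c n^{-2/p}`.

Method. (1) The Poincare inequality on `{x ∈ [-1,1]ⁿ | x ∈ C}` for all signed order cones `C`, with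
the constant of the cube (`TwoSatPolytopes`), is applied to functions of `x_i = φ(y_i)` with `φ` odd
and increasing: the cones `C` are invariant under `y ↦ (φ(y_i))`. So the product of `n` copies of a
symmetric distribution `γ`, conditioned to `C`, satisfies the weighted inequality
`Var F ≤ K E ∑ w(y_i) (∂_i F)²` with `w` and `K` of the distribution `γ`. For the density
`exp (- |s|^p)` and the truncations of it this gives a Poincare inequality with the absolute constant
`36` (the map is comparable to the inverse distribution function). (2) A point `x` of `C` with the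
density `exp (- ∑ |x_i|^p)` is `r k`, `k` uniform on `K` and `r` independent of `k`, of known
distribution (Gamma), `r = (n/p)^{1/p} (1 + O(n^{-1/2}))`. For a 1-Lipschitz function `f` on `K`
Poincare's inequality is applied to `r x ↦ f(x)` outside of a small neighbourhood of the origin; as
`E |x|²` is at most `C_p` times the square of the typical radius, `Var f ≤ C_p n^{-2/p}`, and the same
for the averages of the functions `f` on small scales which are needed for the isoperimetric
inequality for sets of measure one half (modules `Y506.FF`, `Y665.FF`, `Y429.RG` of the starting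
files). (3) The law of `∑ cos x_i` is the same on all cones. If all variances of `K` in directions of
length one were small, the variance of `∑ cos x_i - ∑ a_i x_i`, `a` chosen such that the mean of the
gradient is small, would be at most `1/2` of that of `∑ cos x_i`, minus the projection on linear
functions and functions of `r`, by (1); this is a contradiction for large `n`, and for bounded `n`
there are finitely many cones. The halfspace constant bounds the variances because it forces
exponential tails of the one-dimensional marginals (module `Y211.FF` of the starting files).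
-/

set_option autoImplicit false

namespace Pool.Agent.Results.MP_8d00da_gt.LpBallsCones

open MeasureTheory Set
open scoped ENNReal InnerProductSpace

/-- Euclidean space of dimension `n` -/
abbrev Euc (n : ℕ) : Type := EuclideanSpace ℝ (Fin n)

/-- signed variables: `(i, true)` is `x_i`, `(i, false)` is `- x_i` -/
abbrev Lit (n : ℕ) : Type := Fin n × Bool

/-- the value of a signed variable, `x_i` or `- x_i` -/
def val {n : ℕ} (x : Euc n) (l : Lit n) : ℝ := if l.2 = true then x l.1 else - x l.1

/-- the part of the unit ball of `l_p` in the signed order cone given by the inequalities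
`val x l ≤ val x m`, `(l, m) ∈ F` -/
def body {n : ℕ} (p : ℝ) (F : Set (Lit n × Lit n)) : Set (Euc n) :=
  {x | (∑ i, |x i| ^ p ≤ 1) ∧ ∀ l m, (l, m) ∈ F → val x l ≤ val x m}

/-- the uniform probability measure on `K` -/
noncomputable def unif {n : ℕ} (K : Set (Euc n)) : Measure (Euc n) :=
  (volume K)⁻¹ • volume.restrict K

/-- Minkowski (exterior) boundary measure `μ⁺(A)` -/
noncomputable def bdry {n : ℕ} (μ : Measure (Euc n)) (A : Set (Euc n)) : ℝ≥0∞ :=
  Filter.liminf (fun ε : ℝ => (μ (Metric.thickening ε A) - μ A) / ENNReal.ofReal ε)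
    (nhdsWithin 0 (Set.Ioi 0))

/-- the halfspace `⟪u, x⟫ ≤ b` -/
def halfspace {n : ℕ} (u : Euc n) (b : ℝ) : Set (Euc n) := {x | inner ℝ u x ≤ b}

/-- the inequality of Kannan, Lovasz and Simonovits with constant `c` for the uniform measure `μ` on
`K` and sets of measure one half: if `t min(μ H, 1 - μ H) ≤ μ⁺(H)` for all halfspaces `H` then
`c t min(μ A, 1 - μ A) ≤ μ⁺(A)` for all measurable `A` with `μ A = 1/2` -/
def KLSHalf {n : ℕ} (c : ℝ) (K : Set (Euc n)) : Prop :=
  ∀ t : ℝ≥0∞, (∀ (u : Euc n) (b : ℝ), u ≠ 0 →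
      t * min (unif K (halfspace u b)) (1 - unif K (halfspace u b)) ≤
        bdry (unif K) (halfspace u b)) →
    ∀ A : Set (Euc n), MeasurableSet A → unif K A = 1 / 2 →
      ENNReal.ofReal c * t * min (unif K A) (1 - unif K A) ≤ bdry (unif K) A

/-- the relation on the signed variables -/
def rel {n : ℕ} (F : Set (Lit n × Lit n)) (l m : Lit n) : Prop := (l, m) ∈ F

theorem body_eq {n : ℕ} (p : ℝ) (F : Set (Lit n × Lit n)) :
    body p F = Pool.Agent.T2H73.LB.KC p (rel F) := by
  have hv : ∀ (x : Euc n) (l : Lit n), Pool.Agent.T2H73.SB.sv (WithLp.ofLp x) l = val x l := by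
    intro x l
    unfold Pool.Agent.T2H73.SB.sv Pool.Agent.T2H73.SB.sg val
    cases l.2 <;> simp
  ext x
  unfold body Pool.Agent.T2H73.LB.KC Pool.Agent.T2H73.LB.CE Pool.Agent.T2H73.SB.CB
    Pool.Agent.T2H73.LB.sp rel
  simp only [mem_ofPred_eq, hv]
  exact and_comm

/-- **KLS (Cheeger form) for `l_p` balls cut by signed order cones.** For every `p ≥ 1` there is
`c > 0` such that for all `n ≥ 1` and all sets `F` of pairs of signed variables for which
`K = {x | ∑ |x_i|^p ≤ 1, val x l ≤ val x m for (l, m) ∈ F}` has interior points, `K` is a convex body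
which satisfies the inequality of Kannan, Lovasz and Simonovits with constant `c` for sets of measure
one half. More precisely `c n^{1/p} ≤ μ⁺(A)` for all measurable `A` of measure one half, where `μ` is
the uniform measure on `K`, and `Var_μ ⟪x, θ⟫ ≥ c n^{-2/p}` for some `θ` of length one. -/
theorem result : ∀ p : ℝ, 1 ≤ p → ∃ c : ℝ, 0 < c ∧ ∀ (n : ℕ) (F : Set (Lit n × Lit n)), 1 ≤ n →
    (interior (body p F)).Nonempty →
    (IsCompact (body p F) ∧ Convex ℝ (body p F)) ∧ KLSHalf c (body p F) ∧
    (∀ A : Set (Euc n), MeasurableSet A → unif (body p F) A = 1 / 2 →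
      ENNReal.ofReal (c * (n : ℝ) ^ (1 / p)) ≤ bdry (unif (body p F)) A) ∧
    ∃ θ : Euc n, ‖θ‖ = 1 ∧ c * (n : ℝ) ^ (-(2 / p)) ≤
      ProbabilityTheory.variance (fun x => inner ℝ x θ) (unif (body p F)) := by
  intro p hp1
  have hp0 : (0 : ℝ) < p := by linarith
  obtain ⟨c0, hc0, H⟩ := Pool.Agent.T2H73.LB.kls hp1
  obtain ⟨e0, he0, hdir⟩ := Pool.Agent.T2H73.LB.dir_all hp1
  have hkap := Pool.Agent.T2H73.LB.kap_pos hp1
  obtain ⟨c1, hc1⟩ : ∃ c1 : ℝ, c1 = Pool.Agent.T2H73.LB.kap p / 8 * (1 / p) ^ (1 / p) := ⟨_, rfl⟩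
  have hc1p : 0 < c1 := by
    rw [hc1]
    have : (0 : ℝ) < (1 / p) ^ (1 / p) := Real.rpow_pos_of_pos (by positivity) _
    positivity
  obtain ⟨c2, hc2⟩ : ∃ c2 : ℝ, c2 = e0 / 2 / ((2 : ℝ) ^ (2 / p)) := ⟨_, rfl⟩
  have hc2p : 0 < c2 := by
    rw [hc2]
    positivity
  refine ⟨min c0 (min c1 c2), lt_min hc0 (lt_min hc1p hc2p), fun n F hn hi => ?_⟩
  obtain ⟨K, hK⟩ : ∃ K, K = body p F := ⟨_, rfl⟩
  rw [← hK] at hi ⊢
  rw [body_eq] at hK
  subst hK
  have hcp := Pool.Agent.T2H73.LB.KC_compact hp1 (rel F)
  have hv := Pool.Agent.R972.OP.vpos hi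
  have hn1 : (1 : ℝ) ≤ n := by exact_mod_cast hn
  have hn0 : (0 : ℝ) < n := by linarith
  have hRR := Pool.Agent.T2H73.LB.RR_pos hp1 n
  refine ⟨⟨hcp, Pool.Agent.T2H73.LB.KC_convex hp1 (rel F)⟩, ?_, ?_, ?_⟩
  · intro t ht A _ hA
    have h1 := H n (rel F) hn hi t (fun θ b hθ => ht θ b (by
      intro h0
      rw [h0, norm_zero] at hθ
      exact zero_ne_one hθ)) A hA
    refine le_trans ?_ h1
    calc ENNReal.ofReal (min c0 (min c1 c2)) * t *
          min (unif (Pool.Agent.T2H73.LB.KC p (rel F)) A)
            (1 - unif (Pool.Agent.T2H73.LB.KC p (rel F)) A) ≤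
        ENNReal.ofReal c0 * t * 1 := by
          refine mul_le_mul' (mul_le_mul' (ENNReal.ofReal_le_ofReal (min_le_left _ _)) le_rfl) ?_
          exact (min_le_right _ _).trans tsub_le_self
      _ = ENNReal.ofReal c0 * t := mul_one _
  · intro A _ hA
    refine le_trans (ENNReal.ofReal_le_ofReal ?_)
      (Pool.Agent.T2H73.LB.half_sets hp1 hn hi A hA)
    have h2 : (n : ℝ) ^ (1 / p) * (1 / p) ^ (1 / p) ≤ Pool.Agent.T2H73.LB.RR p n := by
      rw [← Real.mul_rpow (by linarith) (by positivity)]
      unfold Pool.Agent.T2H73.LB.RR Pool.Agent.T2H73.LB.aN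
      refine Real.rpow_le_rpow (by positivity) ?_ (by positivity)
      have : (n : ℝ) * (1 / p) = n / p := by ring
      rw [this]
      linarith
    have h3 : min c0 (min c1 c2) ≤ c1 := (min_le_right _ _).trans (min_le_left _ _)
    have h4 : (0 : ℝ) < (n : ℝ) ^ (1 / p) := Real.rpow_pos_of_pos hn0 _
    calc min c0 (min c1 c2) * (n : ℝ) ^ (1 / p) ≤ c1 * (n : ℝ) ^ (1 / p) :=
          mul_le_mul_of_nonneg_right h3 h4.le
      _ = Pool.Agent.T2H73.LB.kap p / 8 * ((n : ℝ) ^ (1 / p) * (1 / p) ^ (1 / p)) := by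
          rw [hc1]; ring
      _ ≤ Pool.Agent.T2H73.LB.kap p / 8 * Pool.Agent.T2H73.LB.RR p n :=
          mul_le_mul_of_nonneg_left h2 (by positivity)
      _ = Pool.Agent.T2H73.LB.kap p * Pool.Agent.T2H73.LB.RR p n / 8 := by ring
  · by_contra hcon
    push Not at hcon
    obtain ⟨v, hvd⟩ : ∃ v : ℝ, v = min c0 (min c1 c2) * (n : ℝ) ^ (-(2 / p)) := ⟨_, rfl⟩
    rw [← hvd] at hcon
    have h1 := hdir n hn (rel F) hi v (fun θ hθ => by
      have h5 := hcon θ hθ
      have h6 := Pool.Agent.R972.OP.var_eq hcp hv (fun x => inner ℝ x θ) (by fun_prop)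
      rw [← h6]
      exact h5.le)
    have h3 : min c0 (min c1 c2) ≤ c2 := (min_le_right _ _).trans (min_le_right _ _)
    have h4 : (0 : ℝ) < (n : ℝ) ^ (-(2 / p)) := Real.rpow_pos_of_pos hn0 _
    have h5 : Pool.Agent.T2H73.LB.RR p n ^ 2 ≤ (2 : ℝ) ^ (2 / p) * (n : ℝ) ^ (2 / p) := by
      rw [← Real.mul_rpow (by norm_num) hn0.le]
      unfold Pool.Agent.T2H73.LB.RR Pool.Agent.T2H73.LB.aN
      rw [← Real.rpow_natCast, ← Real.rpow_mul (by positivity)]
      have e1 : 1 / p * ((2 : ℕ) : ℝ) = 2 / p := by
        push_cast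
        ring
      rw [e1]
      refine Real.rpow_le_rpow (by positivity) ?_ (by positivity)
      have : (n : ℝ) / p ≤ n := div_le_self hn0.le hp1
      linarith
    have h6 : (n : ℝ) ^ (2 / p) * (n : ℝ) ^ (-(2 / p)) = 1 := by
      rw [← Real.rpow_add hn0]
      simp
    have h7 : e0 ≤ v * Pool.Agent.T2H73.LB.RR p n ^ 2 := by
      rwa [div_le_iff₀ (by positivity)] at h1
    have hv0 : 0 < v := by
      rw [hvd]
      exact mul_pos (lt_min hc0 (lt_min hc1p hc2p)) h4
    have h8 : v * Pool.Agent.T2H73.LB.RR p n ^ 2 ≤ e0 / 2 := by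
      calc v * Pool.Agent.T2H73.LB.RR p n ^ 2 ≤
            v * ((2 : ℝ) ^ (2 / p) * (n : ℝ) ^ (2 / p)) := mul_le_mul_of_nonneg_left h5 hv0.le
        _ ≤ (c2 * (n : ℝ) ^ (-(2 / p))) * ((2 : ℝ) ^ (2 / p) * (n : ℝ) ^ (2 / p)) := by
            refine mul_le_mul_of_nonneg_right ?_ (by positivity)
            rw [hvd]
            exact mul_le_mul_of_nonneg_right h3 h4.le
        _ = c2 * (2 : ℝ) ^ (2 / p) * ((n : ℝ) ^ (2 / p) * (n : ℝ) ^ (-(2 / p))) := by ring
        _ = e0 / 2 := by
            rw [h6, hc2]
            have : (0 : ℝ) < (2 : ℝ) ^ (2 / p) := by positivity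
            field_simp
    linarith

end Pool.Agent.Results.MP_8d00da_gt.LpBallsCones
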