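import Pool.Agent.T2H47.KL.App

/-!
# The KLS conjecture in Cheeger form for level sets of strongly convex functions, truncations and
small pieces of arbitrary convex bodies

Q1, for sets of measure one half.

(A) Level sets `L_s = {x ∈ K | Φ x ≤ s}` of a strongly convex function `Φ` (modulus `κ`) on an
arbitrary compact convex set `K`: if the volume grows, `|L_{s'}| ≥ (1 + γ)ⁿ |L_s|` for some level
`s' > s`, and `|L_s| ≥ |B(0, r)|`, then the inequality of Kannan, Lovasz and Simonovits holds for
`L_s` with the constant `c r (κ γ / (s' - s))^{1/2}`, `c > 0` absolute. The boundary of `L_s` consists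
of a part of the boundary of `K`, which is arbitrary, and a part of the level set of `Φ`; no
uniform convexity of `L_s` is required (and it fails for `K ∩ B(x₀, ρ)`).

(B) Local form. If `K` is closed and convex, `x₀ ∈ K` and `|K ∩ B(x₀, R)| ≥ δⁿ |B(x₀, R)|`, then
`K ∩ B(x₀, ρ)` satisfies the inequality with the constant `c δ^{3/2}` for all `ρ ≤ δ R / 2`.

(C) Isomorphic form. If `0` is in the interior of the convex body `K ⊂ B(0, R)` and
`|K| ≥ θⁿ |B(0, R)|` then for all `0 < ε ≤ 1` the body `T = {x | ‖x‖_K² + ε |x|² / R² ≤ 1}`, which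
satisfies `(1 + ε)^{-1/2} K ⊂ T ⊂ K`, satisfies the inequality with the constant `c θ ε^{1/2}`.

Method. Let `A, B ⊂ L_s` be at distance `t`. By strong convexity `Φ ≤ s - κ t² / 8` at the midpoints of
the points of `A` and `B`, so by Brunn and Minkowski the smaller of `|A|, |B|` is at most
`|L_{s - κ t² / 8}|`, and the concavity of `u ↦ |L_u|^{1/n}` on `[s - κ t² / 8, s']` gives
`|L_{s - τ}| ≤ exp (- n γ τ / (s' - s)) |L_s|`. So `L_s` has Gaussian concentration at the scale
`((s' - s) / (n γ κ))^{1/2}`. By the theorem of E. Milman (in the form of the modules `Y665.FF.Milb`,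
`Y429.RG.MINKM` of the starting files) the isoperimetric inequality for sets of measure one half holds
with the constant `c (n γ κ / (s' - s))^{1/2}`. The bound `t ≤ C n^{1/2} / r` for the halfspace
constant follows from the volume: it bounds the variances of the coordinates (module `Y211.FF.Half`),
while the second moment about any point is at least `r² / 8`. For (B) `Φ = |x - x₀|²`, and the growth
follows from the concavity of `ρ ↦ |K ∩ B(x₀, ρ)|^{1/n}`; for (C) `Φ = ‖x‖_K² + ε |x|² / R²` is
homogeneous.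

The Prekopa and Leindler inequality and the modules above are from the starting files. The other
modules (`T2H47.KL`) and this file are by helper47.
-/

set_option autoImplicit false

namespace Pool.Agent.Results.MP_8d00da_gt.StronglyConvexLevels

open MeasureTheory Set
open scoped ENNReal InnerProductSpace Pointwise

/-- Euclidean space of dimension `n` -/
abbrev Euc (n : ℕ) : Type := EuclideanSpace ℝ (Fin n)

/-- Minkowski (exterior) boundary measure `μ⁺(A)` -/
noncomputable def bdry {n : ℕ} (μ : Measure (Euc n)) (A : Set (Euc n)) : ℝ≥0∞ :=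
  Filter.liminf (fun ε : ℝ => (μ (Metric.thickening ε A) - μ A) / ENNReal.ofReal ε)
    (nhdsWithin 0 (Set.Ioi 0))

/-- the halfspace `⟪u, x⟫ ≤ b` -/
def halfspace {n : ℕ} (u : Euc n) (b : ℝ) : Set (Euc n) := {x | inner ℝ u x ≤ b}

/-- the uniform probability measure on `K` -/
noncomputable def unif {n : ℕ} (K : Set (Euc n)) : Measure (Euc n) :=
  (volume K)⁻¹ • volume.restrict K

/-- the inequality of Kannan, Lovasz and Simonovits with constant `c` for the uniform measure `μ` on
`K` and sets of measure one half: if `t min(μ H, 1 - μ H) ≤ μ⁺(H)` for all halfspaces `H` then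
`c t min(μ A, 1 - μ A) ≤ μ⁺(A)` for all measurable `A` with `μ A = 1/2` -/
def KLSHalf {n : ℕ} (c : ℝ) (K : Set (Euc n)) : Prop :=
  ∀ t : ℝ≥0∞, (∀ (u : Euc n) (b : ℝ), u ≠ 0 →
      t * min (unif K (halfspace u b)) (1 - unif K (halfspace u b)) ≤
        bdry (unif K) (halfspace u b)) →
    ∀ A : Set (Euc n), MeasurableSet A → unif K A = 1 / 2 →
      ENNReal.ofReal c * t * min (unif K A) (1 - unif K A) ≤ bdry (unif K) A

/-- the part of `K` on which `Φ ≤ s` -/
def level {n : ℕ} (K : Set (Euc n)) (Φ : Euc n → ℝ) (s : ℝ) : Set (Euc n) := {x ∈ K | Φ x ≤ s}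

/-- the body `{x | ‖x‖_K² + ε |x|² / R² ≤ 1}`, where `‖·‖_K` is the gauge of `K` -/
noncomputable def rounding {n : ℕ} (K : Set (Euc n)) (R ε : ℝ) : Set (Euc n) :=
  {x | gauge K x ^ 2 + ε / R ^ 2 * ‖x‖ ^ 2 ≤ 1}

/-- **KLS (Cheeger form) for level sets of strongly convex functions.** There is an absolute constant
`c > 0` such that for all `n ≥ 1` (A), (B) and (C) above hold. -/
theorem result : ∃ c : ℝ, 0 < c ∧ ∀ n : ℕ, 1 ≤ n →
    -- (A) level sets
    (∀ (K : Set (Euc n)) (Φ : Euc n → ℝ) (κ s s' γ r : ℝ), IsCompact K → ContinuousOn Φ K →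
      0 < κ → StrongConvexOn K κ Φ → s < s' → 0 < γ → 0 < r →
      ENNReal.ofReal ((1 + γ) ^ n) * volume (level K Φ s) ≤ volume (level K Φ s') →
      volume (Metric.ball (0 : Euc n) r) ≤ volume (level K Φ s) →
      KLSHalf (c * r * Real.sqrt (κ * γ / (s' - s))) (level K Φ s)) ∧
    -- (B) local form
    (∀ (K : Set (Euc n)) (x₀ : Euc n) (R δ ρ : ℝ), IsClosed K → Convex ℝ K → x₀ ∈ K →
      0 < δ → 0 < ρ → ρ ≤ δ * R / 2 →
      ENNReal.ofReal (δ ^ n) * volume (Metric.ball (0 : Euc n) R) ≤
        volume (K ∩ Metric.closedBall x₀ R) →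
      KLSHalf (c * (δ * Real.sqrt δ)) (K ∩ Metric.closedBall x₀ ρ)) ∧
    -- (C) isomorphic form
    (∀ (K : Set (Euc n)) (R θ ε : ℝ), IsCompact K → Convex ℝ K → (0 : Euc n) ∈ interior K →
      K ⊆ Metric.closedBall 0 R → 0 < θ → 0 < ε → ε ≤ 1 →
      ENNReal.ofReal (θ ^ n) * volume (Metric.ball (0 : Euc n) R) ≤ volume K →
      (IsCompact (rounding K R ε) ∧ Convex ℝ (rounding K R ε) ∧ rounding K R ε ⊆ K ∧
        K ⊆ Real.sqrt (1 + ε) • rounding K R ε) ∧
      KLSHalf (c * θ * Real.sqrt ε) (rounding K R ε)) := by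
  obtain ⟨c1, hc1, H1⟩ := Pool.Agent.T2H47.KL.kls_lev
  obtain ⟨c2, hc2, H2⟩ := Pool.Agent.T2H47.KL.local_form
  obtain ⟨c3, hc3, H3⟩ := Pool.Agent.T2H47.KL.iso_form
  have conv : ∀ (n : ℕ) (c : ℝ) (L : Set (Euc n)), 0 < volume L → volume L ≠ ⊤ →
      Pool.Agent.T2H47.KL.Hf c L → KLSHalf c L := by
    intro n c L hL0 hLt h t ht A _ hA2
    have hprob : IsProbabilityMeasure (unif L) := ⟨by
      unfold unif
      rw [Measure.smul_apply, Measure.restrict_apply_univ, smul_eq_mul,
        ENNReal.inv_mul_cancel hL0.ne' hLt]⟩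
    have key := h (unif L) rfl t ht A hA2
    refine le_trans ?_ key
    calc ENNReal.ofReal c * t * min (unif L A) (1 - unif L A)
        ≤ ENNReal.ofReal c * t * 1 := mul_le_mul_right ((min_le_left _ _).trans prob_le_one) _
      _ = _ := mul_one _
  have hmn : ∀ (n : ℕ) (c c' : ℝ) (L : Set (Euc n)), c' ≤ c → KLSHalf c L → KLSHalf c' L := by
    intro n c c' L hcc h t ht A hA hA2
    refine le_trans ?_ (h t ht A hA hA2)
    gcongr
  refine ⟨min c1 (min c2 c3), by positivity, fun n hn => ⟨?_, ?_, ?_⟩⟩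
  · intro K Φ κ s s' γ r hK hΦ hκ hs hss hγ hr hgr hvol
    have hpos : 0 < volume (level K Φ s) :=
      lt_of_lt_of_le (Metric.measure_ball_pos volume _ hr) hvol
    have hc : IsCompact (level K Φ s) := Pool.Agent.T2H47.KL.lev_compact hK hΦ s
    have hcv : Convex ℝ (level K Φ s) :=
      Pool.Agent.T2H47.KL.lev_convex (hs.strictConvexOn hκ).convexOn s
    have hint := Pool.Agent.T2H47.KL.nonempty_of_vol hcv hc.isClosed hpos
    refine hmn n (c1 * (r * Real.sqrt (κ * γ / (s' - s)))) _ _ ?_
      (conv n _ _ hpos hc.measure_lt_top.ne ?_)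
    · rw [mul_assoc]
      have : 0 ≤ r * Real.sqrt (κ * γ / (s' - s)) := by positivity
      exact mul_le_mul_of_nonneg_right (min_le_left _ _) this
    · exact H1 n hn K hK Φ hΦ κ hκ hs s s' γ r hss hγ hr hgr hvol hint
  · intro K x₀ R δ ρ hK hcv hx hδ hρ hρR hvol
    have key := H2 n hn K hK hcv x₀ hx R δ ρ hδ hρ (by linarith) hvol
    have hR : 0 < R := by
      by_contra h
      rw [not_lt] at h
      nlinarith
    have hfin : volume (K ∩ Metric.closedBall x₀ ρ) ≠ ⊤ :=
      ((measure_mono inter_subset_right).trans_lt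
        (isCompact_closedBall x₀ ρ).measure_lt_top).ne
    refine hmn n (c2 * (δ * Real.sqrt δ)) _ _ ?_ ?_
    · have : 0 ≤ δ * Real.sqrt δ := by positivity
      exact mul_le_mul_of_nonneg_right ((min_le_right _ _).trans (min_le_left _ _)) this
    · rcases eq_or_ne (volume (K ∩ Metric.closedBall x₀ ρ)) 0 with h0 | h0
      · intro t _ A _ hA2
        exfalso
        unfold unif at hA2
        rw [Measure.smul_apply, smul_eq_mul] at hA2
        have h1 : (volume.restrict (K ∩ Metric.closedBall x₀ ρ)) A = 0 :=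
          measure_mono_null (subset_univ A) (by rw [Measure.restrict_apply_univ]; exact h0)
        rw [h1, mul_zero] at hA2
        have h2 : (1 / 2 : ℝ≥0∞) ≠ 0 := by simp
        exact h2 hA2.symm
      · exact conv n _ _ (pos_iff_ne_zero.2 h0) hfin key
  · intro K R θ ε hK hcv h0 hKR hθ hε hε1 hvol
    obtain ⟨h1, h2, h3, h4, h5⟩ := H3 n hn K hK hcv h0 R θ ε hKR hθ hε hε1 hvol
    refine ⟨⟨h1, h2, h3, h4⟩, hmn n (c3 * θ * Real.sqrt ε) _ _ ?_ ?_⟩
    · have : 0 ≤ θ * Real.sqrt ε := by positivity
      rw [mul_assoc, mul_assoc]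
      exact mul_le_mul_of_nonneg_right ((min_le_right _ _).trans (min_le_right _ _)) this
    · have hKpos : 0 < volume K :=
        lt_of_lt_of_le (isOpen_interior.measure_pos volume ⟨0, h0⟩) (measure_mono interior_subset)
      have hpos : 0 < volume (rounding K R ε) := by
        have h6 := measure_mono (μ := volume) h4
        rw [Measure.addHaar_smul_of_nonneg _ (by positivity)] at h6
        by_contra h
        have h7 : volume (rounding K R ε) = 0 := by simpa using h
        change volume K ≤ ENNReal.ofReal _ * volume (rounding K R ε) at h6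
        rw [h7, mul_zero] at h6
        exact absurd hKpos (not_lt.2 h6)
      exact conv n _ _ hpos h1.measure_lt_top.ne h5

end Pool.Agent.Results.MP_8d00da_gt.StronglyConvexLevels
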