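import Pool.Agent.T2H47.KB.AllD
import Pool.Agent.Y532.PV.Che

/-!
# Stability of the KLS inequality under sums of arbitrarily many bodies

Q1, for sets of measure one half, for the bodies

`K = {x ∈ ℝ^m | ∑_{i ∉ J} ‖x_i‖_{C_i}^(p_i) ≤ 1, x_j ∈ C_j for j ∈ J}`

where `x ↦ (x_1, …, x_M)` is any linear bijection of `ℝ^m` onto `∏ ℝ^(k_i)`, the number `M` of blocks, their
dimensions `k_i` and the exponents `p_i ≥ 1` are arbitrary, `‖·‖_C` is the gauge, and the `C_i ⊂ ℝ^(k_i)` are
convex bodies with centroid at the origin (no symmetry is required) each of which either has dimension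
`k_i ≤ s`, and is otherwise arbitrary, or has any dimension and satisfies the Poincare inequality with
constant `s` in isotropic position (that is, satisfies the KLS inequality with a constant which depends on
`s`). The constant in the conclusion depends only on `s`. The same for the images of `K` under affine maps
with kernels of dimension at most `s`.

So the KLS inequality is stable under sums of arbitrarily many bodies, and it holds for all these sums
of arbitrary bodies of bounded dimension.

The starting file `CompositeBodies` has such sums of arbitrarily many blocks only for norms with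
symmetries (1-symmetric norms, invariant norms of matrices); for general bodies it has sums of boundedly
many blocks, which are symmetric bodies, with a constant which depends on their number.

Method. (1) `exp (-‖x‖_C^p)` satisfies the Poincare inequality in isotropic position, with a constant which
depends only on `s` (modules `T2H47.KB.Gam` to `Poi`). A point with this density is `t^(1/p) y` with `t` of
Gamma law, density `t^(k/p) exp (-t)`, and `y` uniform in `C`. The conditional variance for fixed `t` is
bounded by the inequality for `C`. The mean `g(t)` over `y` of a function of `t^(1/p) y` has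
`g'(t)² ≤ (1/p)² t^(2/p - 2) k E |∇|²`; but for small and for large `t` the weights `t^(2/p)` of the gradient
are not comparable to their mean. For small `t` one uses a weighted Hardy inequality, for large `t` the
inequality for `g` together with the inequality for the direct integral in `t` along the rays through `y`
(`|y| ≤ 3 k` for `y ∈ C` in isotropic position), where the Gamma density decreases exponentially.
(2) The product of these densities has the inequality with the same constant. A point with the density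
`exp (-∑ ‖x_i‖^(p_i))` is `D_r Y`, `Y` uniform on `{∑ ‖x_i‖^(p_i) ≤ 1}`, `D_r` the dilation
`x_i ↦ r^(1/p_i) x_i`. Because the blocks of `Y` are centred and orthogonal in mean (this uses only the
centroids: products of linear functions of different blocks are homogeneous under `D_r`, so that their
integrals over the body are proportional to those for the product density), `E |T D_t Y - T Y|² ≤ C s'`,
`t = r / E r`, for linear maps `T` with `Cov (T Y) ≤ s'` (module `Rdc`, after `R751.MB.Rdm`).
(3) The constraints `x_j ∈ C_j` are limits of powers. (4) Bodies of dimension `k ≤ s`: the Poincare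
inequality in isotropic position with constant `16 k² 2^k` (module `Low`). (5) Concentration of Lipschitz
functions for all linear images gives the isoperimetric inequality for sets of measure one half, as in the
starting files `ImagesOfSections`, `CompositeBodies`.
-/

set_option autoImplicit false

namespace Pool.Agent.Results.MP_8d00da_gt.SumsOfBodies

open MeasureTheory Set
open scoped ENNReal InnerProductSpace

/-- Euclidean space of dimension `n` -/
abbrev Euc (n : ℕ) : Type := EuclideanSpace ℝ (Fin n)

/-- convex bodies: compact, convex, with nonempty interior -/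
structure IsBody {k : ℕ} (C : Set (Euc k)) : Prop where
  comp : IsCompact C
  conv : Convex ℝ C
  int : (interior C).Nonempty

/-- the uniform probability measure on `K` -/
noncomputable def unif {m : ℕ} (K : Set (Euc m)) : Measure (Euc m) :=
  (volume K)⁻¹ • volume.restrict K

/-- The Poincaré inequality `Var f ≤ c₀ E ‖∇ f‖²`, for all `C¹` functions, in isotropic position: after
a linear bijection `A` which makes all variances of the coordinates in directions of length one equal
to one. -/
def Poincare (c₀ : ℝ) {k : ℕ} (C : Set (Euc k)) : Prop :=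
  ∃ A : Euc k ≃ₗ[ℝ] Euc k,
    (∀ θ : Euc k, ProbabilityTheory.variance (fun x => ⟪A x, θ⟫_ℝ) (unif C) = ‖θ‖ ^ 2) ∧
    ∀ f : Euc k → ℝ, ContDiff ℝ 1 f → ProbabilityTheory.variance (fun x => f (A x)) (unif C) ≤
      c₀ * ∫ x, ‖fderiv ℝ f (A x)‖ ^ 2 ∂(unif C)

/-- The bodies which are summed: convex bodies `C ⊂ ℝ^k`, `k ≥ 1`, with centroid at the origin, which have
dimension `k ≤ s` or satisfy the Poincaré inequality with constant `s` in isotropic position. -/
structure Summand (s : ℕ) {k : ℕ} (C : Set (Euc k)) : Prop extends IsBody C where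
  dim : 1 ≤ k
  centroid : ∫ x in C, x = 0
  small_or_poincare : k ≤ s ∨ Poincare s C

/-- `K = {x | ∑_{i ∉ J} ‖x_i‖_{C_i}^(p_i) ≤ 1, x_j ∈ C_j for j ∈ J}`, where `x ↦ (x_i)_i` is a linear
bijection of `ℝ^m` onto `∏_{i < M} ℝ^(k_i)`, `p_i ≥ 1`, and the gauges are those of summands `C_i` -/
def SumOfBodies (s : ℕ) {m : ℕ} (K : Set (Euc m)) : Prop :=
  ∃ (M : ℕ) (k : Fin M → ℕ) (L : Euc m ≃ₗ[ℝ] (∀ i, Euc (k i))) (p : Fin M → ℝ)
    (C : ∀ i, Set (Euc (k i))) (J : Finset (Fin M)), (∀ i, 1 ≤ p i) ∧
    (∀ i, Summand s (C i)) ∧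
    K = {x | ∑ i ∈ Finset.univ \ J, gauge (C i) (L x i) ^ p i ≤ 1 ∧ ∀ i ∈ J, L x i ∈ C i}

/-- Minkowski (exterior) boundary measure `μ⁺(A)` -/
noncomputable def bdry {n : ℕ} (μ : Measure (Euc n)) (A : Set (Euc n)) : ℝ≥0∞ :=
  Filter.liminf (fun ε : ℝ => (μ (Metric.thickening ε A) - μ A) / ENNReal.ofReal ε)
    (nhdsWithin 0 (Set.Ioi 0))

/-- the halfspace `⟪u, x⟫ ≤ b` -/
def halfspace {n : ℕ} (u : Euc n) (b : ℝ) : Set (Euc n) := {x | inner ℝ u x ≤ b}

/-- the inequality of Kannan, Lovasz and Simonovits with constant `c` for the uniform measure `μ` on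
`K` and sets of measure one half: if `t min(μ H, 1 - μ H) ≤ μ⁺(H)` for all halfspaces `H` then
`c t min(μ A, 1 - μ A) ≤ μ⁺(A)` for all measurable `A` with `μ A = 1/2` -/
def KLSHalf {n : ℕ} (c : ℝ) (K : Set (Euc n)) : Prop :=
  ∀ t : ℝ≥0∞, (∀ (u : Euc n) (b : ℝ), u ≠ 0 →
      t * min (unif K (halfspace u b)) (1 - unif K (halfspace u b)) ≤
        bdry (unif K) (halfspace u b)) →
    ∀ A : Set (Euc n), MeasurableSet A → unif K A = 1 / 2 →
      ENNReal.ofReal c * t * min (unif K A) (1 - unif K A) ≤ bdry (unif K) A

theorem var_eq {n : ℕ} {K : Set (Euc n)} (hK : IsCompact K) (hi : (interior K).Nonempty)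
    {f : Euc n → ℝ} (hf : Continuous f) : ProbabilityTheory.variance f (unif K) =
      (∫ x, f x ^ 2 ∂(unif K)) - (∫ x, f x ∂(unif K)) ^ 2 := by
  have h0 : volume K ≠ 0 := Pool.Agent.R755.KF.vol_ne hi
  have hp : IsProbabilityMeasure (unif K) :=
    Pool.Agent.R754.KG.un_prob h0 hK.measure_lt_top.ne
  have h2 : Integrable (fun x => f x ^ 2) (unif K) :=
    Pool.Agent.R754.KG.un_int h0 hK.isBounded (hf.pow 2)
  rw [ProbabilityTheory.variance_eq_sub
    ((memLp_two_iff_integrable_sq hf.aestronglyMeasurable).2 h2)]
  rfl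

theorem pi_of {c₀ : ℝ} {k : ℕ} {C : Set (Euc k)} (hb : IsBody C) (h : Poincare c₀ C) :
    Pool.Agent.R755.KF.PI c₀ C := by
  obtain ⟨A, h1, h2⟩ := h
  have hAc : Continuous A := A.toLinearMap.continuous_of_finiteDimensional
  refine ⟨hb.comp, hb.conv, hb.int, A, fun θ => ?_, fun f hf => ?_⟩
  · have h3 := h1 θ
    rw [var_eq hb.comp hb.int (by fun_prop)] at h3
    exact h3
  · have h3 := h2 f hf
    rw [var_eq hb.comp hb.int (f := fun x => f (A x)) (hf.continuous.comp hAc)] at h3
    exact h3

theorem centroid_inner {k : ℕ} {C : Set (Euc k)} (hc : IsCompact C) (h : ∫ x in C, x = 0)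
    (θ : Euc k) : ∫ x in C, ⟪x, θ⟫_ℝ = 0 := by
  have h1 : IntegrableOn (fun x : Euc k => x) C :=
    continuous_id.continuousOn.integrableOn_compact hc
  have h2 := integral_inner (𝕜 := ℝ) (μ := volume.restrict C) h1 θ
  rw [h, inner_zero_right] at h2
  rw [← h2]
  exact integral_congr_ae (Filter.Eventually.of_forall fun x => real_inner_comm _ _)

/-- the constant in the Poincare inequality of the summands -/
noncomputable def cst (s : ℕ) : ℝ := s + 1 + 16 * (s : ℝ) ^ 2 * 2 ^ s

theorem cst_pos (s : ℕ) : 0 < cst s := by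
  unfold cst
  positivity

theorem gk_of {s : ℕ} {k : ℕ} {C : Set (Euc k)} (h : Summand s C) :
    Pool.Agent.T2H47.KB.GK (cst s) k (gauge C) := by
  have hcen := centroid_inner h.comp h.centroid
  refine Pool.Agent.T2H47.KB.gauge_gk h.dim ?_ hcen
  rcases h.small_or_poincare with h1 | h1
  · have h2 := Pool.Agent.T2H47.KB.low_pi h.dim h.comp h.conv h.int hcen
    refine Pool.Agent.R751.MB.pi_mono ?_ h2
    unfold cst
    have h3 : (k : ℝ) ≤ s := by exact_mod_cast h1
    have h4 : (2 : ℝ) ^ k ≤ 2 ^ s := pow_le_pow_right₀ (by norm_num) h1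
    have h5 : (0 : ℝ) ≤ k := Nat.cast_nonneg k
    have h6 : 16 * (k : ℝ) ^ 2 * 2 ^ k ≤ 16 * (s : ℝ) ^ 2 * 2 ^ s := by gcongr
    have h7 : (0 : ℝ) ≤ s := Nat.cast_nonneg s
    linarith
  · refine Pool.Agent.R751.MB.pi_mono ?_ (pi_of h.toIsBody h1)
    unfold cst
    have h7 : 0 ≤ 16 * (s : ℝ) ^ 2 * 2 ^ s := by positivity
    linarith

theorem bn_of {s m : ℕ} {K : Set (Euc m)} (h : SumOfBodies s K) :
    Pool.Agent.T2H47.KB.BN (cst s) K := by
  obtain ⟨M, k, L, p, C, J, hp, hC, hK⟩ := h
  refine ⟨M, k, L, p, fun i => gauge (C i), J, hp, fun i => Or.inr (gk_of (hC i)), ?_⟩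
  rw [hK]
  ext x
  simp only [mem_ofPred_eq]
  refine and_congr_right fun _ => forall_congr' fun i => forall_congr' fun _ => ?_
  have h0 := Pool.Agent.T2H47.KB.zero_int (hC i).comp (hC i).conv (hC i).int
    (centroid_inner (hC i).comp (hC i).centroid)
  have h1 := Pool.Agent.T2H47.KB.gauge_set (hC i).comp (hC i).conv h0
  exact (Set.ext_iff.1 h1 (L x i)).symm

/-- **Stability of the KLS inequality (Cheeger form) under sums of arbitrarily many bodies.** For every
`s` there is a constant `c > 0` such that for all `n ≥ 1`, all affine maps `T` of `ℝ^m` onto `ℝⁿ`,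
`m ≤ n + s`, and all `K = {x ∈ ℝ^m | ∑_{i ∉ J} ‖x_i‖_{C_i}^(p_i) ≤ 1, x_j ∈ C_j for j ∈ J}` with arbitrarily many
convex bodies `C_i` with centroid at the origin, which have dimension at most `s` or satisfy the Poincare
inequality with constant `s` in isotropic position, the body `T '' K` satisfies the inequality of Kannan,
Lovasz and Simonovits with constant `c` for all sets of measure one half. -/
theorem result : ∀ s : ℕ, ∃ c : ℝ, 0 < c ∧
    ∀ (m n : ℕ) (K : Set (Euc m)) (T : Euc m →ᵃ[ℝ] Euc n), 1 ≤ n → m ≤ n + s →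
    SumOfBodies s K → Function.Surjective T → KLSHalf c (T '' K) := by
  intro s
  obtain ⟨c, hc, H⟩ := Pool.Agent.T2H47.KB.star_cr s 1 (cst s) (cst_pos s)
  obtain ⟨c', hc', H'⟩ := Pool.Agent.Y532.PV.che c hc
  refine ⟨c', hc', fun m n K T hn hm hK hT => ?_⟩
  have hTL : ∀ x, T x = T 0 + T.linear x := fun x => by
    have h := T.map_vadd 0 x
    rw [vadd_eq_add, add_zero] at h
    rw [h, vadd_eq_add, add_comm]
  have hA : Function.Surjective T.linear := by
    rwa [AffineMap.linear_surjective_iff]
  have hnm : n ≤ m := by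
    have := LinearMap.finrank_le_finrank_of_surjective (f := T.linear) hA
    simpa using this
  have h1 : Pool.Agent.T2H47.KB.Cr s 1 (cst s) 0 m K := .blk _ _ (hn.trans hnm) (bn_of hK)
  have h2 := Pool.Agent.T2H47.KB.Cr.image _ _ _ _ T.linear (T 0) hm hA h1
  rw [← image_congr fun x _ => hTL x] at h2
  obtain ⟨g1, g2, g3, g4⟩ := H n _ hn h2
  intro t ht A hA' hA2
  have hprob : IsProbabilityMeasure (unif (T '' K)) :=
    Pool.Agent.Y506.KS.unif_prob (Pool.Agent.Y506.PV.vol_pos g3) g1.measure_lt_top.ne
  have key := H' n _ g1 g2 g3 g4 (unif (T '' K)) rfl t ht A hA2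
  refine le_trans ?_ key
  calc ENNReal.ofReal c' * t * min (unif (T '' K) A) (1 - unif (T '' K) A)
      ≤ ENNReal.ofReal c' * t * 1 := mul_le_mul_right ((min_le_left _ _).trans prob_le_one) _
    _ = _ := mul_one _

/-- The case of symmetric blocks: norms `N_i` on `ℝ^(k_i)`, `k_i ≤ s`, are arbitrary. For every `s` there is
`c > 0` such that the unit balls `{x | ∑_i ‖x_i‖_i^p ≤ 1}` of the `ℓ_p`-sums of arbitrarily many normed
spaces of dimension at most `s`, in all linear coordinates, satisfy the inequality. -/
theorem lp_sums : ∀ s : ℕ, ∃ c : ℝ, 0 < c ∧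
    ∀ (n M : ℕ) (k : Fin M → ℕ) (L : Euc n ≃ₗ[ℝ] (∀ i, Euc (k i))) (p : ℝ)
    (C : ∀ i, Set (Euc (k i))), 1 ≤ n → 1 ≤ p → (∀ i, 1 ≤ k i ∧ k i ≤ s) →
    (∀ i, IsBody (C i) ∧ ∀ x ∈ C i, -x ∈ C i) →
    KLSHalf c {x | ∑ i, gauge (C i) (L x i) ^ p ≤ 1} := by
  intro s
  obtain ⟨c, hc, H⟩ := result s
  refine ⟨c, hc, fun n M k L p C hn hp hk hC => ?_⟩
  have h := H n n {x | ∑ i, gauge (C i) (L x i) ^ p ≤ 1} (AffineMap.id ℝ (Euc n)) hn (by omega) ?_
    Function.surjective_id
  · simpa using h
  · refine ⟨M, k, L, fun _ => p, C, ∅, fun _ => hp, fun i => ⟨(hC i).1, (hk i).1, ?_,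
      Or.inl (hk i).2⟩, ?_⟩
    · have hm : MeasurableSet (C i) := (hC i).1.comp.measurableSet
      rw [← integral_indicator hm]
      have h1 := integral_neg_eq_self (fun x : Euc (k i) => (C i).indicator (fun x => x) x) volume
      have h2 : ∀ x, (C i).indicator (fun x => x) (-x) = -(C i).indicator (fun x => x) x := by
        intro x
        by_cases hx : x ∈ C i
        · rw [indicator_of_mem hx, indicator_of_mem ((hC i).2 x hx)]
        · rw [indicator_of_notMem hx, indicator_of_notMem, neg_zero]
          intro h3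
          have h4 := (hC i).2 _ h3
          rw [neg_neg] at h4
          exact hx h4
      simp only [h2, integral_neg] at h1
      have h5 : (2 : ℝ) • ∫ x, (C i).indicator (fun x => x) x = 0 := by
        rw [two_smul]
        nth_rewrite 1 [← h1]
        exact neg_add_cancel _
      exact (smul_eq_zero.1 h5).resolve_left two_ne_zero
    · ext x
      simp

end Pool.Agent.Results.MP_8d00da_gt.SumsOfBodies
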