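import Pool.Agent.T2H73.SB.FinB

/-!
# The KLS conjecture (Cheeger form) for the linear relaxations of 2-SAT formulas

Q1 for all bodies `K = {x ∈ [0,1]ⁿ | val x l + val x m ≥ 1 for all clauses l ∨ m of F}`, `F` an
arbitrary set of clauses with two literals, `val x l = x_i` or `1 - x_i`, in the position in which
they are given: `D_Che(λ_K) ≥ c D_Che^Lin(λ_K)` with an absolute constant. With the centre of the
cube as origin these are the intersections of the cube with all full dimensional cones given by
inequalities `± x_i ≤ ± x_j`, that is, all convex unions of Weyl chambers of the hyperoctahedral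
group `B_n`, inside the cube. Examples: the fractional stable set polytopes and the fractional
vertex cover polytopes of all graphs (theorem `stable`), order polytopes (`x_i ≤ x_j`; the theorem
`OrderPolytopes` of the starting files), order polytopes of signed posets. More precisely
`π/8 ≤ D_Che(λ_K)`, `D_Poin(λ_K)² ≤ 1/π²`, the value of the cube, and `D_Poin^Lin(λ_K)² ≥ 1/508`.

Method. (1) Place the `n` labels on `2N` positions `0, ..., 2N - 1`, no two of them on the same
position or on positions which are mirror images, and such that the constraints hold for the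
positions of the literals, the negation of a label being at the mirror image. The chain makes the
exchanges of the contents of `k` and `k + 1`, together with those of the mirror images, `k < N`
(for `k = N - 1` a sign change), at a constant rate. Let `F` be an eigenfunction with eigenvalue `λ`
and take a placement and a reflection `(u, v)`, `u < v`, of `B_N` (exchange of `u` and `v` and of
their mirror images; `v` may be the mirror image of `u`) for which `|F(σ) - F(τ)| / (W_v - W_u)` is
maximal, `W_k = - cos(π (k + 1/2) / 2N)`, an odd eigenfunction of the one-particle chain. The same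
exchange is made from both placements. If it decreases `W_v - W_u` it is allowed in both, if it does
not change `W_v - W_u` it is allowed in both or in none, and if it is allowed in one only it increases
`W_v - W_u` by at least one step, which pays for it by the maximality; here it is important that the
length of a sign change is `W_v - W_u` too. So `λ ≥ 1`, and the limit `N → ∞` gives the Poincare
inequality with the constant of the cube. For exchanges without mirror images this is the argument
of the starting files (modules `R972.OP`), which are used for the limit. (2) The function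
`∑ (x_i - 1/2)²` is invariant under `B_n`, so that it has the same law on `K` as on the cube, and
variance `n/180`. If all variances of `λ_K` in directions of length one were less than `1/508`,
its decomposition at the mean `m` of `λ_K` into `|x - m|²` (variance at most `4/π²` times the sum of
the variances of the coordinates, by (1)) and a linear function would give a smaller variance.
The halfspace constant bounds the variances because it forces exponential tails of the
one-dimensional marginals (module `Y211.FF` of the starting files). (3) From Poincare's to Cheeger's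
inequality by the argument of Buser and Ledoux (modules `W695.KH`, `R310.OP2` of the starting files).
-/

set_option autoImplicit false

namespace Pool.Agent.Results.MP_8d00da_gt.TwoSatPolytopes

open MeasureTheory Set
open scoped ENNReal InnerProductSpace

/-- Euclidean space of dimension `n` -/
abbrev Euc (n : ℕ) : Type := EuclideanSpace ℝ (Fin n)

/-- literals: `(i, true)` is the variable `x_i`, `(i, false)` is its negation -/
abbrev Lit (n : ℕ) : Type := Fin n × Bool

/-- the value of a literal, `x_i` or `1 - x_i` -/
def val {n : ℕ} (x : Euc n) (l : Lit n) : ℝ := if l.2 = true then x l.1 else 1 - x l.1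

/-- the linear relaxation of the 2-SAT formula with the clauses `l ∨ m`, `(l, m) ∈ F`: the polytope
`{x ∈ [0,1]ⁿ | val x l + val x m ≥ 1 for (l, m) ∈ F}` -/
def twoSat {n : ℕ} (F : Set (Lit n × Lit n)) : Set (Euc n) :=
  {x | (∀ i, 0 ≤ x i ∧ x i ≤ 1) ∧ ∀ l m, (l, m) ∈ F → 1 ≤ val x l + val x m}

/-- the fractional stable set polytope `{x ∈ [0,1]ⁿ | x_i + x_j ≤ 1 for all edges i j}` of a graph -/
def stableSet {n : ℕ} (G : SimpleGraph (Fin n)) : Set (Euc n) :=
  {x | (∀ i, 0 ≤ x i ∧ x i ≤ 1) ∧ ∀ i j, G.Adj i j → x i + x j ≤ 1}

/-- the uniform probability measure on `K` -/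
noncomputable def unif {n : ℕ} (K : Set (Euc n)) : Measure (Euc n) :=
  (volume K)⁻¹ • volume.restrict K

/-- Minkowski (exterior) boundary measure `μ⁺(A)` -/
noncomputable def bdry {n : ℕ} (μ : Measure (Euc n)) (A : Set (Euc n)) : ℝ≥0∞ :=
  Filter.liminf (fun ε : ℝ => (μ (Metric.thickening ε A) - μ A) / ENNReal.ofReal ε)
    (nhdsWithin 0 (Set.Ioi 0))

/-- the halfspace `⟪u, x⟫ ≤ b` -/
def halfspace {n : ℕ} (u : Euc n) (b : ℝ) : Set (Euc n) := {x | inner ℝ u x ≤ b}

/-- the inequality of Kannan, Lovasz and Simonovits with constant `c` for the uniform measure `μ` on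
`K`: if `t min(μ H, 1 - μ H) ≤ μ⁺(H)` for all halfspaces `H` then
`c t min(μ A, 1 - μ A) ≤ μ⁺(A)` for all measurable `A` -/
def KLS {n : ℕ} (c : ℝ) (K : Set (Euc n)) : Prop :=
  ∀ t : ℝ≥0∞, (∀ (u : Euc n) (b : ℝ), u ≠ 0 →
      t * min (unif K (halfspace u b)) (1 - unif K (halfspace u b)) ≤
        bdry (unif K) (halfspace u b)) →
    ∀ A : Set (Euc n), MeasurableSet A →
      ENNReal.ofReal c * t * min (unif K A) (1 - unif K A) ≤ bdry (unif K) A

/-- the order relation of the formula: the clause `l ∨ m` is `¬ l ≤ m` -/
def rel {n : ℕ} (F : Set (Lit n × Lit n)) (l m : Lit n) : Prop := ((l.1, !l.2), m) ∈ F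

theorem twoSat_eq {n : ℕ} (F : Set (Lit n × Lit n)) :
    twoSat F = Pool.Agent.T2H73.SB.OEB (rel F) := by
  have hneg : ∀ (x : Euc n) (l : Lit n), val x (l.1, !l.2) = 1 - val x l := by
    intro x l
    unfold val
    cases l.2 <;> simp
  have hv : ∀ (x : Euc n) (l : Lit n), Pool.Agent.T2H73.SB.vl (WithLp.ofLp x) l = val x l :=
    fun x l => rfl
  ext x
  unfold twoSat Pool.Agent.T2H73.SB.OEB rel
  simp only [mem_ofPred_eq, hv]
  refine and_congr_right fun _ => ⟨fun h l m hlm => ?_, fun h l m hlm => ?_⟩
  · have h1 := h _ _ hlm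
    rw [hneg] at h1
    linarith
  · have h1 := h (l.1, !l.2) m (by simpa using hlm)
    rw [hneg] at h1
    linarith

/-- **KLS (Cheeger form) for 2-SAT polytopes.** There is an absolute constant `c > 0` such that for
all `n ≥ 1` and all sets `F` of clauses with two literals for which `K = twoSat F` has interior
points, `K` is a convex body which satisfies the inequality of Kannan, Lovasz and Simonovits with
constant `c`, for all measurable sets. More precisely `π/8 min(μ A, 1 - μ A) ≤ μ⁺(A)` for all
measurable `A`, where `μ` is the uniform measure on `K`, `Var_μ f ≤ (1/π²) ∫ ‖∇f‖² dμ` for all `f`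
of class `C¹`, and `Var_μ ⟪x, θ⟫ ≥ 1/508` for some `θ` of length one. -/
theorem result : ∃ c : ℝ, 0 < c ∧ ∀ (n : ℕ) (F : Set (Lit n × Lit n)), 1 ≤ n →
    (interior (twoSat F)).Nonempty →
    (IsCompact (twoSat F) ∧ Convex ℝ (twoSat F)) ∧ KLS c (twoSat F) ∧
    (∀ A : Set (Euc n), MeasurableSet A → ENNReal.ofReal (Real.pi / 8) *
      min (unif (twoSat F) A) (1 - unif (twoSat F) A) ≤ bdry (unif (twoSat F)) A) ∧
    (∀ f : Euc n → ℝ, ContDiff ℝ 1 f → ProbabilityTheory.variance f (unif (twoSat F)) ≤
      1 / Real.pi ^ 2 * ∫ x, ‖fderiv ℝ f x‖ ^ 2 ∂(unif (twoSat F))) ∧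
    ∃ θ : Euc n, ‖θ‖ = 1 ∧
      1 / 508 ≤ ProbabilityTheory.variance (fun x => inner ℝ x θ) (unif (twoSat F)) := by
  obtain ⟨c, hc, H⟩ := Pool.Agent.T2H73.SB.klsB
  refine ⟨c, hc, fun n F hn hi => ?_⟩
  obtain ⟨K, hK⟩ : ∃ K, K = twoSat F := ⟨_, rfl⟩
  rw [← hK] at hi ⊢
  rw [twoSat_eq] at hK
  subst hK
  have hcp := Pool.Agent.T2H73.SB.compactB (rel F)
  have hv := Pool.Agent.R972.OP.vpos hi
  refine ⟨⟨hcp, Pool.Agent.T2H73.SB.convexB (rel F)⟩, ?_, ?_, ?_, ?_⟩
  · intro t ht A hA
    refine H n (rel F) hn hi t (fun θ b hθ => ht θ b ?_) A hA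
    intro h0
    rw [h0, norm_zero] at hθ
    exact zero_ne_one hθ
  · intro A hA
    exact Pool.Agent.T2H73.SB.setsB (rel F) hi A hA
  · intro f hf
    have h1 := Pool.Agent.T2H73.SB.pobeB (rel F) f hf
    rw [← Pool.Agent.R972.OP.var_eq hcp hv f hf.continuous,
      ← Pool.Agent.R972.OP.un_int] at h1
    exact h1
  · by_contra hcon
    push Not at hcon
    have h1 := Pool.Agent.T2H73.SB.dirB (rel F) hn hi (1 / 508) (fun θ hθ => by
      rw [← Pool.Agent.R972.OP.var_eq hcp hv _ (by fun_prop)]
      exact (hcon θ hθ).le)
    norm_num at h1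

/-- Fractional stable set polytopes of arbitrary graphs. -/
theorem stable : ∃ c : ℝ, 0 < c ∧ ∀ (n : ℕ) (G : SimpleGraph (Fin n)), 1 ≤ n →
    KLS c (stableSet G) := by
  obtain ⟨c, hc, H⟩ := result
  refine ⟨c, hc, fun n G hn => ?_⟩
  have e : stableSet G = twoSat {p : Lit n × Lit n | p.1.2 = false ∧ p.2.2 = false ∧
      G.Adj p.1.1 p.2.1} := by
    ext x
    unfold stableSet twoSat val
    simp only [mem_ofPred_eq]
    refine and_congr_right fun _ => ⟨fun h l m hlm => ?_, fun h i j hij => ?_⟩
    · obtain ⟨h1, h2, h3⟩ := hlm
      have := h _ _ h3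
      rw [h1, h2]
      simp only [Bool.false_eq_true, if_false]
      linarith
    · have := h (i, false) (j, false) ⟨rfl, rfl, hij⟩
      simp only [Bool.false_eq_true, if_false] at this
      linarith
  rw [e]
  refine (H n _ hn ?_).2.1
  rw [← e]
  -- the ball around `(1/4, ..., 1/4)`
  refine ⟨WithLp.toLp 2 fun _ => 1 / 4, ?_⟩
  have hU : IsOpen (⋂ i, ({x : Euc n | 0 < x i} ∩ {x | x i < 1 / 2})) :=
    isOpen_iInter_of_finite fun i =>
      (isOpen_lt continuous_const (by fun_prop)).inter (isOpen_lt (by fun_prop) continuous_const)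
  refine interior_maximal ?_ hU ?_
  · intro x hx
    simp only [mem_inter_iff, mem_iInter, mem_ofPred_eq] at hx
    refine ⟨fun i => ⟨(hx i).1.le, by linarith [(hx i).2]⟩, fun i j _ => ?_⟩
    linarith [(hx i).2, (hx j).2]
  · simp only [mem_inter_iff, mem_iInter, mem_ofPred_eq]
    intro i
    norm_num

end Pool.Agent.Results.MP_8d00da_gt.TwoSatPolytopes
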